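import Mathlib

/-!
# MP_cb1e0a_co, Q1: a homogeneous compact geodesic space with infinite cop number

The space is the infinite torus, the product of the circles of length `2⁻ⁿ` (`n = 0, 1, 2, ...`),
with the supremum metric.
-/

namespace Pool.Agent.Results.MP_cb1e0a_co.InfiniteTorus

open Filter Topology

/-! ### The game -/

section Game

variable (X : Type*) [MetricSpace X]

/-- Any two points are joined by a path of length equal to their distance, parametrised by arc
length. -/
def Geodesic : Prop :=
  ∀ x y : X, ∃ γ : ℝ → X, γ 0 = x ∧ γ (dist x y) = y ∧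
    ∀ s ∈ Set.Icc 0 (dist x y), ∀ t ∈ Set.Icc 0 (dist x y), dist (γ s) (γ t) = |s - t|

/-- The isometry group acts transitively. -/
def Homogeneous : Prop := ∀ x y : X, ∃ i : X ≃ᵢ X, i x = y

variable {X}

/-- The cops win the play in which the robber is at `r n` and the cops are at `c n` after step
`n`: some cop catches the robber, or the infimum of the distances is `0`.  Both cases are covered
by saying that the distances get arbitrarily small. -/
def CopsWinPlay {k : ℕ} (r : ℕ → X) (c : ℕ → Fin k → X) : Prop :=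
  ∀ ε > 0, ∃ n i, dist (r n) (c n i) < ε

/-- A strategy of the cops: it assigns to the robber's play `r` the positions `S r n` of the cops
after step `n`, which depend only on `r 0, ..., r n`. -/
def NonAnticipating {k : ℕ} (S : (ℕ → X) → ℕ → Fin k → X) : Prop :=
  ∀ r r' : ℕ → X, ∀ n, (∀ m ≤ n, r m = r' m) → S r n = S r' n

/-- A legal play of the robber: `τ n` is the agility in step `n + 1`. -/
def RobberLegal (τ : ℕ → ℝ) (r₀ : X) (r : ℕ → X) : Prop :=
  r 0 = r₀ ∧ ∀ n, dist (r n) (r (n + 1)) ≤ τ n

variable (X)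

/-- `k` cops can win: whatever initial positions `r₀`, `c₀` and whatever agility function `τ` the
robber's player chooses, the cops have a (legal) strategy which wins against every legal play of
the robber. -/
def CopsWin (k : ℕ) : Prop :=
  ∀ (r₀ : X) (c₀ : Fin k → X) (τ : ℕ → ℝ), (∀ n, 0 < τ n) → ¬ Summable τ →
    ∃ S : (ℕ → X) → ℕ → Fin k → X, NonAnticipating S ∧
      ∀ r, RobberLegal τ r₀ r →
        S r 0 = c₀ ∧ (∀ n i, dist (S r n i) (S r (n + 1) i) ≤ τ n) ∧ CopsWinPlay r (S r)

/-- The cop number, with value `⊤` if no finite number of cops can win. -/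
noncomputable def copNumber : ℕ∞ := ⨅ k : {k : ℕ // 1 ≤ k ∧ CopsWin X k}, (k.1 : ℕ∞)

end Game

/-! ### The infinite torus -/

/-- The points of the infinite torus. -/
@[ext]
structure Torus where
  /-- the coordinates -/
  coord : ℕ → AddCircle (1 : ℝ)

/-- The weights. -/
noncomputable def w (n : ℕ) : ℝ := (1 / 2) ^ n

theorem w_pos (n : ℕ) : 0 < w n := by unfold w; positivity

theorem w_le_one (n : ℕ) : w n ≤ 1 := pow_le_one₀ (by norm_num) (by norm_num)

theorem w_anti {m n : ℕ} (h : m ≤ n) : w n ≤ w m :=
  pow_le_pow_of_le_one (by norm_num) (by norm_num) h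

theorem norm_le (z : AddCircle (1 : ℝ)) : ‖z‖ ≤ 1 / 2 := by
  have := AddCircle.norm_le_half_period (1 : ℝ) (x := z) one_ne_zero
  simpa using this

theorem norm_half : ‖((1 / 2 : ℝ) : AddCircle (1 : ℝ))‖ = 1 / 2 := by
  rw [(AddCircle.norm_coe_eq_abs_iff (1 : ℝ) one_ne_zero).mpr (by norm_num)]
  norm_num

theorem exists_lift (z : AddCircle (1 : ℝ)) : ∃ t : ℝ, (t : AddCircle (1 : ℝ)) = z ∧
    |t| = ‖z‖ ∧ |t| ≤ 1 / 2 := by
  obtain ⟨a, rfl⟩ := QuotientAddGroup.mk_surjective z
  have h1 : |a - round a| ≤ 1 / 2 := abs_sub_round a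
  have h2 : ((a - round a : ℝ) : AddCircle (1 : ℝ)) = (a : AddCircle (1 : ℝ)) := by
    rw [AddCircle.coe_sub, sub_eq_self]
    rw [AddCircle.coe_eq_zero_iff]
    exact ⟨round a, by simp⟩
  refine ⟨a - round a, h2, ?_, h1⟩
  have h3 := (AddCircle.norm_coe_eq_abs_iff (1 : ℝ) (x := a - round a) one_ne_zero).mpr
    (by simpa using h1)
  rw [← h3, h2]

theorem bdd (x y : Torus) : BddAbove (Set.range fun n => w n * ‖x.coord n - y.coord n‖) := by
  refine ⟨1, ?_⟩
  rintro _ ⟨n, rfl⟩
  have h1 := w_pos n
  have h2 := w_le_one n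
  have h3 := norm_le (x.coord n - y.coord n)
  have h4 := norm_nonneg (x.coord n - y.coord n)
  simp only
  nlinarith

noncomputable instance : MetricSpace Torus where
  dist x y := ⨆ n, w n * ‖x.coord n - y.coord n‖
  dist_self x := by simp
  dist_comm x y := by
    congr 1
    ext n
    rw [norm_sub_rev]
  dist_triangle x y z := by
    apply ciSup_le
    intro n
    have h1 : w n * ‖x.coord n - z.coord n‖ ≤ w n * ‖x.coord n - y.coord n‖ + w n * ‖y.coord n - z.coord n‖ := by
      rw [← mul_add]
      apply mul_le_mul_of_nonneg_left _ (w_pos n).le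
      have := norm_add_le (x.coord n - y.coord n) (y.coord n - z.coord n)
      rwa [sub_add_sub_cancel] at this
    have h2 := le_ciSup (bdd x y) n
    have h3 := le_ciSup (bdd y z) n
    exact h1.trans (add_le_add h2 h3)
  eq_of_dist_eq_zero := by
    intro x y h
    ext n
    have h1 := le_ciSup (bdd x y) n
    have h2 : w n * ‖x.coord n - y.coord n‖ ≤ 0 := h1.trans_eq h
    have h3 : ‖x.coord n - y.coord n‖ ≤ 0 := by
      by_contra hc
      push Not at hc
      have := mul_pos (w_pos n) hc
      linarith
    have h4 : x.coord n - y.coord n = 0 := norm_le_zero_iff.mp h3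
    exact sub_eq_zero.mp h4

theorem dist_def (x y : Torus) : dist x y = ⨆ n, w n * ‖x.coord n - y.coord n‖ := rfl

theorem le_dist (x y : Torus) (n : ℕ) : w n * ‖x.coord n - y.coord n‖ ≤ dist x y := le_ciSup (bdd x y) n

theorem dist_le' {x y : Torus} {a : ℝ} (h : ∀ n, w n * ‖x.coord n - y.coord n‖ ≤ a) : dist x y ≤ a :=
  ciSup_le h

theorem continuous_toTorus : Continuous Torus.mk := by
  rw [continuous_iff_continuousAt]
  intro x
  rw [ContinuousAt, Metric.tendsto_nhds]
  intro ε hε
  obtain ⟨N, hN⟩ : ∃ N, w N < ε / 2 := by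
    obtain ⟨N, hN⟩ := exists_pow_lt_of_lt_one (show 0 < ε / 2 by linarith)
      (show (1 / 2 : ℝ) < 1 by norm_num)
    exact ⟨N, hN⟩
  have h1 : ∀ n ∈ Finset.range N, ∀ᶠ y in 𝓝 x, ‖y n - x n‖ < ε / 2 := by
    intro n _
    have hc : Tendsto (fun y : ℕ → AddCircle (1 : ℝ) => ‖y n - x n‖) (𝓝 x) (𝓝 0) := by
      have : Continuous (fun y : ℕ → AddCircle (1 : ℝ) => ‖y n - x n‖) := by fun_prop
      have h := this.tendsto x
      simpa using h
    exact hc.eventually (gt_mem_nhds (by linarith))
  have h2 := (Finset.eventually_all (Finset.range N)).mpr h1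
  filter_upwards [h2] with y hy
  refine lt_of_le_of_lt (dist_le' (a := ε / 2) fun n => ?_) (by linarith)
  by_cases hn : n < N
  · have h3 := hy n (Finset.mem_range.mpr hn)
    have h4 := w_le_one n
    have h5 := w_pos n
    have h6 := norm_nonneg (y n - x n)
    nlinarith
  · have h3 := w_anti (not_lt.mp hn)
    have h4 := w_pos n
    have h5 := norm_le (y n - x n)
    have h6 := norm_nonneg (y n - x n)
    nlinarith

instance : CompactSpace Torus := by
  have : Fact ((0 : ℝ) < 1) := ⟨one_pos⟩
  have h : IsCompact (Set.range Torus.mk) := isCompact_range continuous_toTorus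
  rw [show Set.range Torus.mk = Set.univ from Set.eq_univ_of_forall fun x => ⟨x.coord, rfl⟩] at h
  exact ⟨h⟩

theorem homogeneous : Homogeneous Torus := by
  intro a b
  let e : Torus ≃ Torus :=
    { toFun := fun x => ⟨fun n => x.coord n + (b.coord n - a.coord n)⟩
      invFun := fun x => ⟨fun n => x.coord n - (b.coord n - a.coord n)⟩
      left_inv := fun x => by ext n; simp
      right_inv := fun x => by ext n; simp }
  refine ⟨⟨e, ?_⟩, ?_⟩
  · apply Isometry.of_dist_eq
    intro x y
    rw [dist_def, dist_def]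
    congr 1
    ext n
    simp [e]
  · ext n
    change a.coord n + (b.coord n - a.coord n) = b.coord n
    abel

theorem geodesic : Geodesic Torus := by
  intro x y
  rcases eq_or_ne x y with rfl | hne
  · refine ⟨fun _ => x, rfl, rfl, ?_⟩
    intro s hs t ht
    rw [dist_self] at hs ht ⊢
    have h1 : s = 0 := le_antisymm hs.2 hs.1
    have h2 : t = 0 := le_antisymm ht.2 ht.1
    simp [h1, h2]
  · have hD : 0 < dist x y := dist_pos.mpr hne
    choose t ht1 ht2 ht3 using fun n => exists_lift (y.coord n - x.coord n)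
    refine ⟨fun s => ⟨fun n => x.coord n + ((s / dist x y * t n : ℝ) : AddCircle (1 : ℝ))⟩,
      ?_, ?_, ?_⟩
    · ext n
      simp
    · ext n
      simp only
      rw [div_self hD.ne', one_mul, ht1]
      abel
    · intro s hs u hu
      have key : ∀ n, w n * ‖(x.coord n + ((s / dist x y * t n : ℝ) : AddCircle (1 : ℝ))) -
          (x.coord n + ((u / dist x y * t n : ℝ) : AddCircle (1 : ℝ)))‖ =
          (|s - u| / dist x y) * (w n * ‖x.coord n - y.coord n‖) := by
        intro n
        rw [add_sub_add_left_eq_sub, ← AddCircle.coe_sub, ← sub_mul, ← sub_div]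
        have h1 : |(s - u) / dist x y * t n| ≤ 1 / 2 := by
          rw [abs_mul, abs_div, abs_of_pos hD]
          have h2 : |s - u| ≤ dist x y := by
            rw [abs_le]
            constructor <;> linarith [hs.1, hs.2, hu.1, hu.2]
          have h3 : |s - u| / dist x y ≤ 1 := (div_le_one hD).mpr h2
          have h4 : 0 ≤ |s - u| / dist x y := by positivity
          have h5 := ht3 n
          have h6 := abs_nonneg (t n)
          nlinarith
        rw [(AddCircle.norm_coe_eq_abs_iff (1 : ℝ) one_ne_zero).mpr (by simpa using h1)]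
        rw [abs_mul, abs_div, abs_of_pos hD, ht2, norm_sub_rev]
        ring
      rw [dist_def]
      have h2 : (fun n => w n * ‖(x.coord n + ((s / dist x y * t n : ℝ) : AddCircle (1 : ℝ))) -
          (x.coord n + ((u / dist x y * t n : ℝ) : AddCircle (1 : ℝ)))‖) =
          fun n => (|s - u| / dist x y) * (w n * ‖x.coord n - y.coord n‖) := funext key
      have h3 : (⨆ n, (|s - u| / dist x y) * (w n * ‖x.coord n - y.coord n‖)) =
          (|s - u| / dist x y) * ⨆ n, (w n * ‖x.coord n - y.coord n‖) :=
        (Real.mul_iSup_of_nonneg (by positivity) _).symm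
      calc (⨆ n, w n * ‖(x.coord n + ((s / dist x y * t n : ℝ) : AddCircle (1 : ℝ))) -
          (x.coord n + ((u / dist x y * t n : ℝ) : AddCircle (1 : ℝ)))‖)
          = (|s - u| / dist x y) * ⨆ n, (w n * ‖x.coord n - y.coord n‖) := by rw [h2, h3]
        _ = (|s - u| / dist x y) * dist x y := by rw [dist_def]
        _ = |s - u| := div_mul_cancel₀ _ hD.ne'

/-! ### The strategy of the robber -/

section Robber

variable {k : ℕ}

/-- The robber moves, in the coordinate number `j < k`, to the point opposite to the coordinate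
number `j` of the cop `j`. -/
noncomputable def next (c : Fin k → Torus) : Torus := ⟨fun j =>
  if h : j < k then (c ⟨j, h⟩).coord j + ((1 / 2 : ℝ) : AddCircle (1 : ℝ)) else 0⟩

/-- The robber's play up to time `n`, continued constantly. -/
noncomputable def R (S : (ℕ → Torus) → ℕ → Fin k → Torus) (r₀ : Torus) : ℕ → ℕ → Torus
  | 0 => fun _ => r₀
  | n + 1 => fun m => if m ≤ n then R S r₀ n m else next (S (R S r₀ n) n)

theorem next_dist {c c' : Fin k → Torus} {a : ℝ} (ha : 0 ≤ a) (h : ∀ i, dist (c i) (c' i) ≤ a) :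
    dist (next c) (next c') ≤ a := by
  apply dist_le'
  intro j
  simp only [next]
  by_cases hj : j < k
  · rw [dif_pos hj, dif_pos hj, add_sub_add_right_eq_sub]
    exact (le_dist _ _ j).trans (h ⟨j, hj⟩)
  · rw [dif_neg hj, dif_neg hj]
    simpa using ha

theorem next_far {c c' : Fin k → Torus} {a : ℝ} (i : Fin k) (h : dist (c i) (c' i) ≤ a) :
    w i / 2 - a ≤ dist (next c) (c' i) := by
  refine le_trans ?_ (le_dist _ _ i)
  have h1 : (next c).coord i = (c i).coord i + ((1 / 2 : ℝ) : AddCircle (1 : ℝ)) := by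
    simp only [next]
    rw [dif_pos i.2]
  rw [h1]
  have h2 := (le_dist (c i) (c' i) i).trans h
  have h3 : (1 / 2 : ℝ) ≤ ‖(c i).coord i + ((1 / 2 : ℝ) : AddCircle (1 : ℝ)) - (c' i).coord i‖ +
      ‖(c i).coord i - (c' i).coord i‖ := by
    have h4 : ((1 / 2 : ℝ) : AddCircle (1 : ℝ)) =
        ((c i).coord i + ((1 / 2 : ℝ) : AddCircle (1 : ℝ)) - (c' i).coord i) - ((c i).coord i - (c' i).coord i) := by
      abel
    have h5 := norm_sub_le ((c i).coord i + ((1 / 2 : ℝ) : AddCircle (1 : ℝ)) - (c' i).coord i)
      ((c i).coord i - (c' i).coord i)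
    rw [← h4, norm_half] at h5
    exact h5
  have h6 := w_pos i
  nlinarith

theorem not_copsWin (k : ℕ) : ¬ CopsWin Torus k := by
  intro hwin
  let c₀ : Fin k → Torus := fun _ => ⟨fun _ => 0⟩
  let r₀ : Torus := next c₀
  let ε : ℝ := w k / 4
  have hε : 0 < ε := div_pos (w_pos k) (by norm_num)
  obtain ⟨S, hS, hSr⟩ := hwin r₀ c₀ (fun _ => ε) (fun _ => hε) (by
    rw [summable_const_iff]
    exact hε.ne')
  -- the finite approximations agree
  have hR : ∀ n m, m ≤ n → R S r₀ (n + 1) m = R S r₀ n m := by
    intro n m h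
    simp only [R]
    rw [if_pos h]
  have hRle : ∀ m n, m ≤ n → R S r₀ n m = R S r₀ m m := by
    intro m n h
    induction n, h using Nat.le_induction with
    | base => rfl
    | succ n h ih => rw [hR n m h, ih]
  have hRge : ∀ n m, n ≤ m → R S r₀ n m = R S r₀ n n := by
    intro n m h
    cases n with
    | zero => rfl
    | succ n =>
      simp only [R]
      rw [if_neg (by omega), if_neg (by omega)]
  have hsucc : ∀ n, R S r₀ (n + 1) (n + 1) = next (S (R S r₀ n) n) := by
    intro n
    simp only [R]
    rw [if_neg (by omega)]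
  -- the approximations are legal
  have hlegal : ∀ n, RobberLegal (fun _ => ε) r₀ (R S r₀ n) := by
    intro n
    induction n with
    | zero => exact ⟨rfl, fun m => by simpa [R] using hε.le⟩
    | succ n ih =>
      refine ⟨by rw [hR n 0 (Nat.zero_le n)]; exact ih.1, fun m => ?_⟩
      rcases lt_trichotomy m n with h | h | h
      · rw [hR n m h.le, hR n (m + 1) h]
        exact ih.2 m
      · subst h
        rw [hR m m le_rfl, hsucc]
        obtain ⟨h0, hmv, -⟩ := hSr _ ih
        cases m with
        | zero =>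
          rw [h0]
          change dist (next c₀) (next c₀) ≤ ε
          rw [dist_self]
          exact hε.le
        | succ m =>
          rw [hsucc]
          have hag : S (R S r₀ m) m = S (R S r₀ (m + 1)) m :=
            hS _ _ m fun j hj => (hR m j hj).symm
          rw [hag]
          exact next_dist hε.le fun i => hmv m i
      · rw [hRge (n + 1) m h, hRge (n + 1) (m + 1) (by omega), dist_self]
        exact hε.le
  -- the full play
  let r : ℕ → Torus := fun n => R S r₀ n n
  have hr : ∀ n m, m ≤ n → r m = R S r₀ n m := fun n m h => (hRle m n h).symm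
  have hrl : RobberLegal (fun _ => ε) r₀ r := by
    refine ⟨rfl, fun n => ?_⟩
    rw [hr (n + 1) n (by omega), hr (n + 1) (n + 1) le_rfl]
    exact (hlegal (n + 1)).2 n
  have hrs : ∀ n, r (n + 1) = next (S r n) := by
    intro n
    have hag : S r n = S (R S r₀ n) n := hS _ _ n fun j hj => hr n j hj
    rw [hag]
    exact hsucc n
  obtain ⟨h0, hmv, hcw⟩ := hSr r hrl
  obtain ⟨n, i, hni⟩ := hcw ε hε
  have hwi : w k ≤ w i := w_anti i.2.le
  have hεk : ε = w k / 4 := rfl
  cases n with
  | zero =>
    rw [h0] at hni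
    have h1 : dist (c₀ i) (c₀ i) ≤ 0 := by rw [dist_self]
    have h2 := next_far (c := c₀) (c' := c₀) i h1
    have h3 : dist (r 0) (c₀ i) = dist (next c₀) (c₀ i) := rfl
    have := w_pos k
    linarith
  | succ n =>
    rw [hrs] at hni
    have h2 := next_far i (hmv n i)
    have := w_pos k
    linarith

end Robber

/-- **Q1 of MP_cb1e0a_co is false.**  The infinite torus is a compact geodesic metric space with a
transitive isometry group, on which `k` cops cannot win for any `k`; its cop number is infinite. -/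
theorem result :
    (CompactSpace Torus ∧ Geodesic Torus ∧ Homogeneous Torus) ∧
    (∀ k : ℕ, ¬ CopsWin Torus k) ∧ copNumber Torus = ⊤ := by
  refine ⟨⟨inferInstance, geodesic, homogeneous⟩, not_copsWin, ?_⟩
  unfold copNumber
  rw [iInf_eq_top]
  rintro ⟨k, -, hk⟩
  exact absurd hk (not_copsWin k)

end Pool.Agent.Results.MP_cb1e0a_co.InfiniteTorus
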